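import Pool.Agent.Helper1.RK.StA

/-!
# Project RK, module DER: derivations of `RatFunc L`
-/

set_option autoImplicit false

namespace Pool.Agent.Helper83.RK

open Pool.Agent.Helper1.RK Polynomial

section ext

variable {L : Type} [Field L] {K : Type} [Field K]

/-- Additive maps with the Leibniz rule along a ring homomorphism which agree on the constants and on
`X` are equal. -/
theorem along_ext (φ : RatFunc L →+* K) (F G : RatFunc L → K)
    (hFa : ∀ a b, F (a + b) = F a + F b) (hFm : ∀ a b, F (a * b) = φ a * F b + φ b * F a)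
    (hGa : ∀ a b, G (a + b) = G a + G b) (hGm : ∀ a b, G (a * b) = φ a * G b + φ b * G a)
    (hC : ∀ a : L, F (RatFunc.C a) = G (RatFunc.C a)) (hX : F RatFunc.X = G RatFunc.X)
    (g : RatFunc L) : F g = G g := by
  have hpoly : ∀ P : L[X], F (algebraMap L[X] (RatFunc L) P) = G (algebraMap L[X] (RatFunc L) P) := by
    intro P
    induction P using Polynomial.induction_on with
    | C a => rw [RatFunc.algebraMap_C]; exact hC a
    | add p q hp hq => rw [map_add, hFa, hGa, hp, hq]
    | monomial n a h =>
      have e : (Polynomial.C a * Polynomial.X ^ (n + 1) : L[X]) =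
          Polynomial.C a * Polynomial.X ^ n * Polynomial.X := by ring
      rw [e, map_mul, hFm, hGm, h, RatFunc.algebraMap_X, hX]
  have hb : (algebraMap L[X] (RatFunc L) g.denom) ≠ 0 :=
    (map_ne_zero_iff _ (RatFunc.algebraMap_injective L)).2 g.denom_ne_zero
  have hg : g * algebraMap L[X] (RatFunc L) g.denom = algebraMap L[X] (RatFunc L) g.num := by
    nth_rewrite 1 [← RatFunc.num_div_denom g]
    field_simp
  have h1 := hpoly g.num
  rw [← hg, hFm, hGm, hpoly g.denom] at h1
  have h2 : φ (algebraMap L[X] (RatFunc L) g.denom) ≠ 0 := (map_ne_zero φ).2 hb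
  exact mul_left_cancel₀ h2 (add_left_cancel h1)

end ext

/-- Additive maps with the Leibniz rule are derivations over `ℤ`, for all instances. -/
theorem exists_der {A : Type} [CommRing A] (iA : Algebra ℤ A) (iM : Module ℤ A) (f : A → A)
    (hadd : ∀ a b, f (a + b) = f a + f b) (hmul : ∀ a b, f (a * b) = a * f b + b * f a) :
    ∃ D : @Derivation ℤ A A _ _ _ iA _ iM, ∀ a, D a = f a := by
  have h0 : f 0 = 0 := by
    have h := hadd 0 0
    rw [add_zero] at h
    exact left_eq_add.1 h
  let F : A →+ A := { toFun := f, map_zero' := h0, map_add' := hadd }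
  let l : @LinearMap ℤ ℤ _ _ (RingHom.id ℤ) A A _ _ iA.toModule iM :=
    @LinearMap.mk ℤ ℤ _ _ (RingHom.id ℤ) A A _ _ iA.toModule iM ⟨f, hadd⟩ (by
      intro n a
      have h1 := int_smul_eq_zsmul iA.toModule n a
      have h2 := int_smul_eq_zsmul iM n (f a)
      have h3 := map_zsmul F n a
      change f (@SMul.smul ℤ A iA.toModule.toSMul n a) = @SMul.smul ℤ A iM.toSMul n (f a)
      rw [h1, h2]
      exact h3)
  exact ⟨@Derivation.mk' ℤ _ A _ iA A _ iM _ l (fun a b => hmul a b), fun a => rfl⟩

section exist

variable {L : Type} [Field L]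

/-- the ring homomorphism `a ↦ a + ε d a` -/
noncomputable def dualC (d : Derivation ℤ L L) : L →+* DualNumber (RatFunc L) where
  toFun a := TrivSqZeroExt.inl (RatFunc.C a) + TrivSqZeroExt.inr (RatFunc.C (d a))
  map_one' := by
    simp
  map_mul' := by
    intro a b
    apply TrivSqZeroExt.ext
    · simp
    · simp
      ring
  map_zero' := by
    simp
  map_add' := by
    intro a b
    apply TrivSqZeroExt.ext
    · simp
    · simp

/-- the ring homomorphism `P ↦ P + ε D P` -/
noncomputable def dualP (d : Derivation ℤ L L) (V : RatFunc L) : L[X] →+* DualNumber (RatFunc L) :=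
  Polynomial.eval₂RingHom (dualC d) (TrivSqZeroExt.inl RatFunc.X + TrivSqZeroExt.inr V)

theorem fst_dualP (d : Derivation ℤ L L) (V : RatFunc L) (P : L[X]) :
    (dualP d V P).fst = algebraMap L[X] (RatFunc L) P := by
  have h : (TrivSqZeroExt.fstHom (RatFunc L) (RatFunc L) (RatFunc L)).toRingHom.comp (dualP d V) =
      algebraMap L[X] (RatFunc L) := by
    apply Polynomial.ringHom_ext
    · intro a
      simp [dualP, dualC]
    · simp [dualP]
  exact RingHom.congr_fun h P

theorem isUnit_dualP (d : Derivation ℤ L L) (V : RatFunc L) (y : nonZeroDivisors L[X]) :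
    IsUnit (dualP d V y) := by
  rw [TrivSqZeroExt.isUnit_iff_isUnit_fst, fst_dualP, isUnit_iff_ne_zero]
  exact (map_ne_zero_iff _ (RatFunc.algebraMap_injective L)).2 (nonZeroDivisors.ne_zero y.2)

/-- the ring homomorphism `g ↦ g + ε D g` -/
noncomputable def dualR (d : Derivation ℤ L L) (V : RatFunc L) :
    RatFunc L →+* DualNumber (RatFunc L) :=
  IsLocalization.lift (M := nonZeroDivisors L[X]) (g := dualP d V) (isUnit_dualP d V)

theorem dualR_alg (d : Derivation ℤ L L) (V : RatFunc L) (P : L[X]) :
    dualR d V (algebraMap L[X] (RatFunc L) P) = dualP d V P :=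
  IsLocalization.lift_eq (isUnit_dualP d V) P

theorem fst_dualR (d : Derivation ℤ L L) (V : RatFunc L) (g : RatFunc L) :
    (dualR d V g).fst = g := by
  have h : (TrivSqZeroExt.fstHom (RatFunc L) (RatFunc L) (RatFunc L)).toRingHom.comp (dualR d V) =
      RingHom.id (RatFunc L) := by
    apply IsLocalization.ringHom_ext (nonZeroDivisors L[X])
    apply RingHom.ext
    intro P
    change (dualR d V (algebraMap L[X] (RatFunc L) P)).fst = algebraMap L[X] (RatFunc L) P
    rw [dualR_alg]
    exact fst_dualP d V P
  exact RingHom.congr_fun h g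

theorem exists_over (d : Derivation ℤ L L) (V : RatFunc L) :
    ∃ D : Derivation ℤ (RatFunc L) (RatFunc L), Over d V D := by
  obtain ⟨D, hD⟩ := exists_der (A := RatFunc L) inferInstance inferInstance
    (fun g => (dualR d V g).snd) (fun a b => by
      change (dualR d V (a + b)).snd = (dualR d V a).snd + (dualR d V b).snd
      rw [map_add, TrivSqZeroExt.snd_add]) (fun a b => by
      change (dualR d V (a * b)).snd = a * (dualR d V b).snd + b * (dualR d V a).snd
      rw [map_mul, TrivSqZeroExt.snd_mul, fst_dualR, fst_dualR, smul_eq_mul, op_smul_eq_mul,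
        mul_comm (dualR d V a).snd b])
  refine ⟨D, ?_, ?_⟩
  · intro a
    rw [hD]
    rw [← RatFunc.algebraMap_C, dualR_alg]
    simp [dualP, dualC]
  · rw [hD]
    rw [← RatFunc.algebraMap_X, dualR_alg]
    simp [dualP]

end exist

section main

variable {L : Type} [Field L]

theorem over_unique (d : Derivation ℤ L L) (V : RatFunc L)
    (D D' : Derivation ℤ (RatFunc L) (RatFunc L)) (h : Over d V D) (h' : Over d V D') : D = D' := by
  ext g
  refine along_ext (RingHom.id (RatFunc L)) D D' (map_add D) ?_ (map_add D') ?_ ?_ ?_ g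
  · intro a b
    rw [D.leibniz]
    rfl
  · intro a b
    rw [D'.leibniz]
    rfl
  · intro a
    rw [h.1, h'.1]
  · rw [h.2, h'.2]

theorem over_formula (d : Derivation ℤ L L) (V : RatFunc L)
    (D Dc Dt : Derivation ℤ (RatFunc L) (RatFunc L)) (h : Over d V D) (hc : Over d 0 Dc)
    (ht : Over 0 1 Dt) (g : RatFunc L) : D g = Dc g + V * Dt g := by
  have h1 : Over d V (Dc + V • Dt) := by
    constructor
    · intro a
      rw [Derivation.add_apply, Derivation.smul_apply, hc.1, ht.1, Derivation.zero_apply, map_zero,
        smul_zero, add_zero]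
    · rw [Derivation.add_apply, Derivation.smul_apply, hc.2, ht.2, zero_add, smul_eq_mul, mul_one]
  rw [over_unique d V D _ h h1]
  rfl

/-- the derivation `Dt` on polynomials -/
theorem Dt_poly {Dt : Derivation ℤ (RatFunc L) (RatFunc L)} (ht : Over 0 1 Dt) (P : L[X]) :
    Dt (algebraMap L[X] (RatFunc L) P) = algebraMap L[X] (RatFunc L) (derivative P) := by
  induction P using Polynomial.induction_on with
  | C a =>
    rw [RatFunc.algebraMap_C, ht.1, derivative_C, map_zero, Derivation.zero_apply, map_zero]
  | add p q hp hq => rw [map_add, map_add, hp, hq, map_add, map_add]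
  | monomial n a h =>
    have e : (Polynomial.C a * Polynomial.X ^ (n + 1) : L[X]) =
        Polynomial.C a * Polynomial.X ^ n * Polynomial.X := by ring
    have e2 : derivative (Polynomial.C a * Polynomial.X ^ n * Polynomial.X : L[X]) =
        derivative (Polynomial.C a * Polynomial.X ^ n) * Polynomial.X +
        Polynomial.C a * Polynomial.X ^ n := by
      rw [derivative_mul, derivative_X, mul_one]
    rw [e, e2, map_mul, Derivation.leibniz, h, RatFunc.algebraMap_X, ht.2, map_add,
      map_mul (algebraMap L[X] (RatFunc L)) (derivative (Polynomial.C a * Polynomial.X ^ n)),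
      RatFunc.algebraMap_X, smul_eq_mul, smul_eq_mul]
    ring

theorem Dt_ker [CharZero L] {Dt : Derivation ℤ (RatFunc L) (RatFunc L)} (ht : Over 0 1 Dt)
    (g : RatFunc L) : Dt g = 0 ↔ Cst g := by
  constructor
  · intro h
    have hb : (algebraMap L[X] (RatFunc L) g.denom) ≠ 0 :=
      (map_ne_zero_iff _ (RatFunc.algebraMap_injective L)).2 g.denom_ne_zero
    have hg : g * algebraMap L[X] (RatFunc L) g.denom = algebraMap L[X] (RatFunc L) g.num := by
      nth_rewrite 1 [← RatFunc.num_div_denom g]
      field_simp
    have h1 : Dt (algebraMap L[X] (RatFunc L) g.num) =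
        g * Dt (algebraMap L[X] (RatFunc L) g.denom) := by
      rw [← hg, Derivation.leibniz, h, smul_zero, add_zero, smul_eq_mul]
    rw [Dt_poly ht, Dt_poly ht] at h1
    have h2 : algebraMap L[X] (RatFunc L) (derivative g.num * g.denom) =
        algebraMap L[X] (RatFunc L) (g.num * derivative g.denom) := by
      rw [map_mul, map_mul, h1, ← hg]
      ring
    have h3 : derivative g.num * g.denom = g.num * derivative g.denom :=
      RatFunc.algebraMap_injective L h2
    have h4 : g.denom ∣ derivative g.denom := by
      have h5 : g.denom ∣ g.num * derivative g.denom := ⟨derivative g.num, by rw [← h3]; ring⟩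
      exact (RatFunc.isCoprime_num_denom g).symm.dvd_of_dvd_mul_left h5
    have h6 : derivative g.denom = 0 := by
      by_contra h7
      have h8 := Polynomial.natDegree_le_of_dvd h4 h7
      have h9 : g.denom.natDegree ≠ 0 := by
        intro h10
        exact h7 (Polynomial.derivative_of_natDegree_zero h10)
      have h10 := Polynomial.natDegree_derivative_lt h9
      omega
    have h11 : derivative g.num = 0 := by
      rw [h6, mul_zero] at h3
      rcases mul_eq_zero.1 h3 with h12 | h12
      · exact h12
      · exact absurd h12 g.denom_ne_zero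
    obtain ⟨a, ha⟩ := Polynomial.natDegree_eq_zero.1
      (Polynomial.derivative_eq_zero.1 h11)
    obtain ⟨b, hb'⟩ := Polynomial.natDegree_eq_zero.1
      (Polynomial.derivative_eq_zero.1 h6)
    refine ⟨a / b, ?_⟩
    rw [← RatFunc.num_div_denom g, ← ha, ← hb', RatFunc.algebraMap_C, RatFunc.algebraMap_C, map_div₀]
  · rintro ⟨a, rfl⟩
    rw [ht.1, Derivation.zero_apply, map_zero]

end main

theorem pDER : StDER := by
  intro L _ _
  exact ⟨fun d V => exists_over d V, fun d V D D' h h' => over_unique d V D D' h h',
    fun d V D Dc Dt h hc ht g => over_formula d V D Dc Dt h hc ht g,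
    fun Dt ht g => Dt_ker ht g⟩

end Pool.Agent.Helper83.RK
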