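import Pool.Agent.Helper83.RK.M_DER

/-!
# Project RK, module TRN: transport of derivations
-/

set_option autoImplicit false

namespace Pool.Agent.Helper83.RK

open Pool.Agent.Helper1.RK Polynomial

theorem alg_C {L : Type} [Field L] (φ : RatFunc L →ₐ[L] RatFunc L) (a : L) :
    φ (RatFunc.C a) = RatFunc.C a := by
  rw [← RatFunc.algebraMap_eq_C]
  exact φ.commutes a

theorem equiv_C {L : Type} [Field L] (φ : RatFunc L ≃ₐ[L] RatFunc L) (a : L) :
    φ (RatFunc.C a) = RatFunc.C a := by
  rw [← RatFunc.algebraMap_eq_C]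
  exact φ.commutes a

theorem pTRN (_h1 : StDER) (_h2 : StIOT) : StTRN := by
  intro L _ _ d
  refine ⟨?_, ?_, ?_⟩
  · intro φ V h D E hD hE hX g
    refine along_ext (φ : RatFunc L →+* RatFunc L) (fun g => D (φ g)) (fun g => φ (E g))
      ?_ ?_ ?_ ?_ ?_ ?_ g
    · intro a b
      rw [map_add, map_add]
    · intro a b
      change D (φ (a * b)) = φ a * D (φ b) + φ b * D (φ a)
      rw [map_mul, Derivation.leibniz, smul_eq_mul, smul_eq_mul]
    · intro a b
      rw [map_add, map_add]
    · intro a b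
      change φ (E (a * b)) = φ a * φ (E b) + φ b * φ (E a)
      rw [Derivation.leibniz, smul_eq_mul, smul_eq_mul, map_add, map_mul, map_mul]
    · intro a
      change D (φ (RatFunc.C a)) = φ (E (RatFunc.C a))
      rw [alg_C, hD.1, hE.1, alg_C]
    · change D (φ RatFunc.X) = φ (E RatFunc.X)
      rw [hE.2, hX]
  · intro ψ V D hD
    obtain ⟨D', hD'⟩ := exists_der (A := RatFunc L) inferInstance inferInstance
      (fun g => ψ (D (ψ.symm g))) (fun a b => by
        change ψ (D (ψ.symm (a + b))) = ψ (D (ψ.symm a)) + ψ (D (ψ.symm b))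
        rw [map_add, map_add, map_add]) (fun a b => by
        change ψ (D (ψ.symm (a * b))) = a * ψ (D (ψ.symm b)) + b * ψ (D (ψ.symm a))
        rw [map_mul, Derivation.leibniz, smul_eq_mul, smul_eq_mul, map_add, map_mul, map_mul,
          ψ.apply_symm_apply, ψ.apply_symm_apply])
    refine ⟨D', ⟨?_, ?_⟩, ?_⟩
    · intro a
      rw [hD', equiv_C, hD.1, equiv_C]
    · rw [hD']
    · intro g
      rw [hD', ψ.symm_apply_apply]
  · intro ι hι V D D' hD hD'
    constructor
    · intro a
      have h1 := hD' (RatFunc.C a)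
      rw [equiv_C, hD.1, equiv_C] at h1
      exact h1
    · have h1 := hD' (RatFunc.X⁻¹)
      have h2 : ι (RatFunc.X⁻¹ : RatFunc L) = RatFunc.X := by
        rw [map_inv₀, hι, inv_inv]
      rw [h2, Derivation.leibniz_inv, hD.2, smul_eq_mul, map_mul, map_neg, map_pow, h2] at h1
      exact h1

end Pool.Agent.Helper83.RK
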